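import Pool.Agent.Q104.FS.Core

/-!
# Finitely generated fiber products of free semigroups are finitely presented

`FreeSemigroup A` is the free semigroup `A⁺` of the nonempty words over `A`.
-/

set_option autoImplicit false

namespace Pool.Agent.Results.MP_c47b4a_al.FinitelyPresentedFibers

open Pool.Agent.Q104.FS

/-- The fiber product `{(u, v) : f u = g v}`, as a subsemigroup of `A⁺ × B⁺`. -/
def fiber {A B Q : Type} [Semigroup Q] (f : FreeSemigroup A →ₙ* Q) (g : FreeSemigroup B →ₙ* Q) :
    Subsemigroup (FreeSemigroup A × FreeSemigroup B) where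
  carrier := {p | f p.1 = g p.2}
  mul_mem' := by
    intro p q hp hq
    have hp' : f p.1 = g p.2 := hp
    have hq' : f q.1 = g q.2 := hq
    show f (p.1 * q.1) = g (p.2 * q.2)
    rw [map_mul, map_mul, hp', hq']

/-- The semigroup `S` is generated by a finite set. -/
def FinitelyGenerated (S : Type) [Semigroup S] : Prop :=
  ∃ X : Set S, X.Finite ∧ Subsemigroup.closure X = ⊤

/-- The semigroup `S` is finitely presented: it is the image of a free semigroup on `n` letters,
and two words have the same image if and only if they are in the same class of the congruence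
that is generated by a finite set `R` of pairs of words. -/
def FinitelyPresented (S : Type) [Semigroup S] : Prop :=
  ∃ (n : ℕ) (π : FreeSemigroup (Fin n) →ₙ* S)
    (R : Set (FreeSemigroup (Fin n) × FreeSemigroup (Fin n))),
    Function.Surjective π ∧ R.Finite ∧
      ∀ x y, π x = π y ↔ conGen (fun a b => (a, b) ∈ R) x y

/-- the letters of a word -/
def toL {A : Type} (w : FreeSemigroup A) : List A := w.head :: w.tail

theorem toL_mul {A : Type} (w w' : FreeSemigroup A) : toL (w * w') = toL w ++ toL w' := rfl

theorem toL_inj {A : Type} {w w' : FreeSemigroup A} (h : toL w = toL w') : w = w' := by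
  obtain ⟨h1, h2⟩ := List.cons.inj h
  exact FreeSemigroup.ext h1 h2

theorem exists_toL {A : Type} {l : List A} (h : l ≠ []) : ∃ w : FreeSemigroup A, toL w = l := by
  cases l with
  | nil => exact absurd rfl h
  | cons a l => exact ⟨⟨a, l⟩, rfl⟩

theorem toL_ne {A : Type} (w : FreeSemigroup A) : toL w ≠ [] := List.cons_ne_nil _ _

theorem ev_toL {A Q : Type} [Semigroup Q] (f : FreeSemigroup A →ₙ* Q) (w : FreeSemigroup A) :
    ev (fun a => ((f (FreeSemigroup.of a) : Q) : WithOne Q)) (toL w) = ((f w : Q) : WithOne Q) := by
  induction w using FreeSemigroup.recOnMul with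
  | ih1 a => simp [toL, ev, FreeSemigroup.of]
  | ih2 a w h1 h2 => rw [toL_mul, ev_append, h1, h2, map_mul, WithOne.coe_mul]

theorem ev_eq_one {A Q : Type} [Semigroup Q] (f : FreeSemigroup A →ₙ* Q) {l : List A}
    (h : ev (fun a => ((f (FreeSemigroup.of a) : Q) : WithOne Q)) l = 1) : l = [] := by
  by_contra hne
  obtain ⟨w, rfl⟩ := exists_toL hne
  rw [ev_toL] at h
  exact WithOne.coe_ne_one h

theorem words_finite (n N : ℕ) : {w : FreeSemigroup (Fin n) | (toL w).length ≤ N}.Finite := by
  have h := (List.finite_length_le (Fin n) N).preimage (f := toL)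
    (fun w _ w' _ h => toL_inj h)
  exact h

/-- **Every finitely generated fiber product of two free semigroups is finitely presented.** -/
theorem result {A B Q : Type} [Semigroup Q] (f : FreeSemigroup A →ₙ* Q)
    (g : FreeSemigroup B →ₙ* Q) (hf : Function.Surjective f) (hg : Function.Surjective g)
    (hS : FinitelyGenerated (fiber f g)) : FinitelyPresented (fiber f g) := by
  classical
  obtain ⟨X, hX, hcl⟩ := hS
  obtain ⟨n, x, hx⟩ : ∃ (n : ℕ) (x : Fin n → fiber f g), Set.range x = X := by
    have := hX.fintype
    exact ⟨Fintype.card X, fun i => ((Fintype.equivFin X).symm i : fiber f g), by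
      ext s
      constructor
      · rintro ⟨i, rfl⟩
        exact ((Fintype.equivFin X).symm i).2
      · intro hs
        exact ⟨Fintype.equivFin X ⟨s, hs⟩, by simp⟩⟩
  have hhat : ∀ a : A, ∃ w : FreeSemigroup B, g w = f (FreeSemigroup.of a) := fun a => hg _
  have hchk : ∀ b : B, ∃ w : FreeSemigroup A, f w = g (FreeSemigroup.of b) := fun b => hf _
  choose hat hhat using hhat
  choose chk hchk using hchk
  have hmem : ∀ s : fiber f g, f s.1.1 = g s.1.2 := fun s => s.2
  have hgen : ∀ s : fiber f g, ∃ l : List (Fin n),
      (l.map fun i => toL (x i).1.1).flatten = toL s.1.1 ∧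
      (l.map fun i => toL (x i).1.2).flatten = toL s.1.2 := by
    intro s
    have hs : s ∈ Subsemigroup.closure X := by
      rw [hcl]
      exact Subsemigroup.mem_top s
    induction hs using Subsemigroup.closure_induction with
    | mem s hs =>
      rw [← hx] at hs
      obtain ⟨i, rfl⟩ := hs
      exact ⟨[i], by simp, by simp⟩
    | mul s t _ _ h1 h2 =>
      obtain ⟨l, hl1, hl2⟩ := h1
      obtain ⟨l', hl1', hl2'⟩ := h2
      refine ⟨l ++ l', ?_, ?_⟩
      · rw [List.map_append, List.flatten_append, hl1, hl1']
        rfl
      · rw [List.map_append, List.flatten_append, hl2, hl2']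
        rfl
  let L : ℕ := (Finset.univ.sup fun i => (toL (x i).1.1).length) +
    (Finset.univ.sup fun i => (toL (x i).1.2).length)
  let D : Dat A B (WithOne Q) (Fin n) :=
    { φ := fun a => ((f (FreeSemigroup.of a) : Q) : WithOne Q)
      ψ := fun b => ((g (FreeSemigroup.of b) : Q) : WithOne Q)
      hat := fun a => toL (hat a)
      hat_ne := fun a => toL_ne _
      hat_ev := fun a => by rw [ev_toL, hhat]
      chk := fun b => toL (chk b)
      chk_ne := fun b => toL_ne _
      chk_ev := fun b => by rw [ev_toL, hchk]
      p := fun i => toL (x i).1.1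
      q := fun i => toL (x i).1.2
      p_ne := fun i => toL_ne _
      q_ne := fun i => toL_ne _
      L := L
      p_le := fun i => (Finset.le_sup (f := fun i => (toL (x i).1.1).length)
        (Finset.mem_univ i)).trans (Nat.le_add_right _ _)
      q_le := fun i => (Finset.le_sup (f := fun i => (toL (x i).1.2).length)
        (Finset.mem_univ i)).trans (Nat.le_add_left _ _)
      pq := fun i => by rw [ev_toL, ev_toL, hmem]
      gen := by
        intro u v huv
        by_cases hu : u = []
        · subst hu
          refine ⟨[], rfl, ?_⟩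
          exact (ev_eq_one g huv.symm).symm
        · by_cases hv : v = []
          · subst hv
            exact absurd (ev_eq_one f huv) hu
          · obtain ⟨u, rfl⟩ := exists_toL hu
            obtain ⟨v, rfl⟩ := exists_toL hv
            rw [ev_toL, ev_toL, WithOne.coe_inj] at huv
            exact hgen ⟨(u, v), huv⟩ }
  let π : FreeSemigroup (Fin n) →ₙ* fiber f g := FreeSemigroup.lift x
  have hπU : ∀ w, D.U (toL w) = toL (π w).1.1 := by
    intro w
    induction w using FreeSemigroup.recOnMul with
    | ih1 i => simp [toL, Dat.U, FreeSemigroup.of, π, D, FreeSemigroup.lift]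
    | ih2 i w h1 h2 =>
      rw [toL_mul, D.U_append, h1, h2, map_mul]
      rfl
  have hπV : ∀ w, D.V (toL w) = toL (π w).1.2 := by
    intro w
    induction w using FreeSemigroup.recOnMul with
    | ih1 i => simp [toL, Dat.V, FreeSemigroup.of, π, D, FreeSemigroup.lift]
    | ih2 i w h1 h2 =>
      rw [toL_mul, D.V_append, h1, h2, map_mul]
      rfl
  have hπ : ∀ {w w' : FreeSemigroup (Fin n)}, D.U (toL w) = D.U (toL w') →
      D.V (toL w) = D.V (toL w') → π w = π w' := by
    intro w w' h1 h2
    rw [hπU, hπU] at h1
    rw [hπV, hπV] at h2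
    exact Subtype.ext (Prod.ext (toL_inj h1) (toL_inj h2))
  let R : Set (FreeSemigroup (Fin n) × FreeSemigroup (Fin n)) :=
    {r | (toL r.1).length ≤ 5 * L + 5 ∧ (toL r.2).length ≤ 5 * L + 5 ∧ π r.1 = π r.2}
  refine ⟨n, π, R, ?_, ?_, ?_⟩
  · intro s
    obtain ⟨l, hl1, hl2⟩ := hgen s
    have hl : l ≠ [] := by
      rintro rfl
      exact toL_ne _ hl1.symm
    obtain ⟨w, rfl⟩ := exists_toL hl
    refine ⟨w, Subtype.ext (Prod.ext (toL_inj ?_) (toL_inj ?_))⟩
    · rw [← hπU]
      exact hl1
    · rw [← hπV]
      exact hl2
  · refine ((words_finite n (5 * L + 5)).prod (words_finite n (5 * L + 5))).subset ?_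
    rintro ⟨a, b⟩ ⟨h1, h2, -⟩
    exact ⟨h1, h2⟩
  · intro a b
    constructor
    · have key : ∀ (k : ℕ) (a b : FreeSemigroup (Fin n)), π a = π b →
          (D.U (toL a)).length ≤ k → conGen (fun a b => (a, b) ∈ R) a b := by
        intro k
        induction k using Nat.strong_induction_on with
        | _ k ih =>
          intro a b hab hk
          have hU : D.U (toL a) = D.U (toL b) := by rw [hπU, hπU, hab]
          have hV : D.V (toL a) = D.V (toL b) := by rw [hπV, hπV, hab]
          by_cases hsmall : (D.U (toL a)).length ≤ 5 * L + 5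
          · refine ConGen.Rel.of _ _ ⟨(D.le_U _).trans hsmall, ?_, hab⟩
            rw [hU] at hsmall
            exact (D.le_U _).trans hsmall
          · obtain ⟨α₁, α₂, β₁, β₂, ρ, hα, hβ, e1, e2, e3, e4, n1, n2, n3, n4, n5⟩ :=
              D.cross hU hV (not_le.1 hsmall)
            obtain ⟨a₁, rfl⟩ := exists_toL n1
            obtain ⟨a₂, rfl⟩ := exists_toL n2
            obtain ⟨b₁, rfl⟩ := exists_toL n3
            obtain ⟨b₂, rfl⟩ := exists_toL n4
            obtain ⟨c, rfl⟩ := exists_toL n5
            rw [← toL_mul] at hα hβ e1 e2 e3 e4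
            obtain rfl := toL_inj hα
            obtain rfl := toL_inj hβ
            have l1 : (D.U (toL a₂)).length < (D.U (toL (a₁ * a₂))).length := by
              rw [toL_mul, D.U_append, List.length_append]
              have h1 := D.le_U (toL a₁)
              have h2 := List.length_pos_iff.2 (toL_ne a₁)
              omega
            have l2 : (D.U (toL (a₁ * c))).length < (D.U (toL (a₁ * a₂))).length := by
              rw [e1, hU, toL_mul, D.U_append, List.length_append]
              have h1 := D.le_U (toL b₂)
              have h2 := List.length_pos_iff.2 (toL_ne b₂)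
              omega
            have r1 := ih _ (lt_of_lt_of_le l1 hk) a₂ (c * b₂) (hπ e3.symm e4.symm) le_rfl
            have r2 := ih _ (lt_of_lt_of_le l2 hk) (a₁ * c) b₁ (hπ e1 e2) le_rfl
            have r3 : conGen (fun a b => (a, b) ∈ R) (a₁ * a₂) (a₁ * (c * b₂)) :=
              (conGen _).mul ((conGen _).refl a₁) r1
            have r4 : conGen (fun a b => (a, b) ∈ R) (a₁ * c * b₂) (b₁ * b₂) :=
              (conGen _).mul r2 ((conGen _).refl b₂)
            rw [← mul_assoc] at r3
            exact (conGen _).trans r3 r4
      exact fun h => key _ a b h le_rfl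
    · intro h
      have h1 : conGen (fun a b => (a, b) ∈ R) ≤ Con.ker π := by
        rw [Con.conGen_le]
        rintro a b ⟨-, -, h⟩
        exact h
      exact h1 h

end Pool.Agent.Results.MP_c47b4a_al.FinitelyPresentedFibers
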